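import Pool.Agent.H37.CNP.Stmts
import Pool.Agent.H54.CND.CONC

/-!
# Denominators of conductors: row CNV (converse of CON)
-/

set_option autoImplicit false

namespace Pool.CND

open Finset

theorem cnv_thm (hRAM : S_RAM) (hUMW : S_UMW) : S_CNV := by
  classical
  intro k L G _ _ _ _ _ P ρ W I l hinj hW hI hl
  have one_mem : ∀ i : ℕ, (1 : G) ∈ ram P ρ i := by
    intro i
    refine ⟨?_, ?_⟩
    · rw [map_one]; exact Fixes.one
    · intro u _ _
      left
      rw [map_one]
      rfl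
  have hne : ∀ g : G, g ≠ 1 → ρ g ≠ 1 := by
    intro g hg h
    apply hg
    apply hinj
    rw [h, map_one]
  have hU := hUMW k L G P ρ W hinj hW
  obtain ⟨⟨g0, hg0, hg1, hb⟩, hle⟩ := hl
  have hl1 : 1 ≤ l := by
    rw [← hb]
    exact hU.pos g0 hg0 hg1
  obtain ⟨n, rfl⟩ := Int.eq_ofNat_of_zero_le (show 0 ≤ l by omega)
  have hn : 1 ≤ n := by exact_mod_cast hl1
  have memW : ∀ g : G, g ∈ W ↔ g ∈ ram P ρ 1 := by
    intro g
    rw [← hW]
    rfl
  have h1 : ram P ρ n ≠ {1} := by
    intro h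
    have h2 : g0 ∈ ram P ρ n := by
      rw [hRAM k L G P ρ g0 n hn]
      have h3 := (hRAM k L G P ρ g0 1 le_rfl).1 ((memW g0).1 hg0)
      exact ⟨h3.1, Or.inr (le_of_eq hb.symm)⟩
    rw [h] at h2
    exact hg1 h2
  have h2 : ram P ρ (n + 1) = {1} := by
    ext g
    constructor
    · intro hg
      rw [Set.mem_singleton_iff]
      by_contra hg1'
      have h3 := (hRAM k L G P ρ g (n + 1) (by omega)).1 hg
      have h4 := h3.2.resolve_left (hne g hg1')
      push_cast at h4
      have h5 : g ∈ W := by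
        rw [memW, hRAM k L G P ρ g 1 le_rfl]
        refine ⟨h3.1, Or.inr ?_⟩
        push_cast
        omega
      have h6 := hle g h5 hg1'
      change P.b (ρ g) ≤ (n : ℤ) at h6
      omega
    · intro hg
      rw [Set.mem_singleton_iff] at hg
      rw [hg]
      exact one_mem _
  have hc : IsConductor P ρ ((∑ i ∈ Icc 1 n, ((ram P ρ i).ncard : ℚ)) / (ram P ρ 0).ncard) :=
    ⟨n, h1, h2, rfl⟩
  have hcardI : (Nat.card I : ℚ) = ((ram P ρ 0).ncard : ℚ) := by
    rw [← hI]
    rfl
  have hIpos : (0 : ℚ) < Nat.card I := by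
    have : 0 < Nat.card I := Nat.card_pos
    exact_mod_cast this
  rcases con_thm hRAM k L G P ρ W I _ hinj hW hI hc with h | ⟨l', hl', h⟩
  · exfalso
    rw [← hcardI, div_eq_zero_iff] at h
    rcases h with h | h
    · have h3 : ∀ i ∈ Icc 1 n, (0 : ℚ) < ((ram P ρ i).ncard : ℚ) := by
        intro i _
        have : 0 < (ram P ρ i).ncard := (Set.ncard_pos (Set.toFinite _)).2 ⟨1, one_mem i⟩
        exact_mod_cast this
      have h4 := Finset.sum_pos h3 ⟨1, by rw [mem_Icc]; omega⟩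
      rw [h] at h4
      exact lt_irrefl _ h4
    · exact hIpos.ne' h
  · have e : l' = (n : ℤ) := by
      obtain ⟨⟨g2, a1, a2, a3⟩, a4⟩ := hl'
      refine le_antisymm ?_ ?_
      · rw [← a3]
        exact hle g2 a1 a2
      · rw [← hb]
        exact a4 g0 hg0 hg1
    rw [e] at h
    have h5 : ((Nat.card W : ℚ) * U (fun g => P.b (ρ g)) W (n : ℤ) / Nat.card I) =
        (∑ i ∈ Icc 1 n, ((ram P ρ i).ncard : ℚ)) / (ram P ρ 0).ncard := by
      rw [← h]
      exact mul_div_cancel_left₀ _ hIpos.ne'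
    have h6 := hc
    rw [← h5] at h6
    exact h6

end Pool.CND
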