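import Pool.Agent.H37.CNP.Stmts

/-!
# Denominators of conductors: row PSW
-/

set_option autoImplicit false

namespace Pool.CND

open Finset Matrix

/-- lifting a `p`-subgroup and its normaliser through a central quotient of order prime to `p` -/
theorem psw_lift (p : ℕ) (hp : p.Prime) {G : Type} [Group G] [Finite G] (Z : Subgroup G)
    [Z.Normal] (hZ : Z ≤ Subgroup.center G) (hz : ¬ p ∣ Nat.card Z) (W I : Subgroup (G ⧸ Z))
    (hWI : W ≤ I) (hr : ∃ r : ℕ, Nat.card W = p ^ r) (hn : ∀ g ∈ I, ∀ w ∈ W, g * w * g⁻¹ ∈ W) :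
    ∃ W' I' : Subgroup G, W' ≤ I' ∧ Nat.card W' = Nat.card W ∧
      Nat.card I' = Nat.card Z * Nat.card I ∧ (∀ g ∈ I', ∀ w ∈ W', g * w * g⁻¹ ∈ W') ∧
      ∀ w ∈ W, ∃ w' ∈ W', (QuotientGroup.mk w' : G ⧸ Z) = w := by
  classical
  obtain ⟨r, hr⟩ := hr
  set π : G →* G ⧸ Z := QuotientGroup.mk' Z with hπ
  have hc : ∀ H : Subgroup (G ⧸ Z), Nat.card (H.comap π) = Nat.card Z * Nat.card H := fun H =>
    QuotientGroup.card_preimage_mk Z (H : Set (G ⧸ Z))
  have hfact : Fact p.Prime := ⟨hp⟩
  have hdvd : p ^ r ∣ Nat.card (W.comap π) := by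
    rw [hc, hr]
    exact dvd_mul_left _ _
  obtain ⟨K, hK⟩ := Sylow.exists_subgroup_card_pow_prime p hdvd
  set W' : Subgroup G := K.map (W.comap π).subtype with hW'
  have hcW : Nat.card W' = p ^ r := by
    rw [hW', Subgroup.card_map_of_injective (W.comap π).subtype_injective, hK]
  have hWle : W' ≤ W.comap π := by
    rw [hW', Subgroup.map_le_iff_le_comap]
    intro x _
    exact x.2
  have hpow : ∀ w ∈ W', w ^ (p ^ r) = 1 := by
    intro w hw
    have h1 := pow_card_eq_one' (G := W') (x := ⟨w, hw⟩)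
    rw [hcW] at h1
    exact congrArg Subtype.val h1
  have hcop : ∀ z ∈ Z, z ^ (p ^ r) = 1 → z = 1 := by
    intro z hz1 hz2
    have h1 : z ^ Nat.card Z = 1 := by
      have := pow_card_eq_one' (G := Z) (x := ⟨z, hz1⟩)
      exact congrArg Subtype.val this
    have h2 : orderOf z ∣ Nat.gcd (p ^ r) (Nat.card Z) :=
      Nat.dvd_gcd (orderOf_dvd_of_pow_eq_one hz2) (orderOf_dvd_of_pow_eq_one h1)
    have h3 : Nat.gcd (p ^ r) (Nat.card Z) = 1 :=
      Nat.Coprime.pow_left r ((Nat.Prime.coprime_iff_not_dvd hp).2 hz)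
    rw [h3, Nat.dvd_one, orderOf_eq_one_iff] at h2
    exact h2
  have hinj : ∀ w ∈ W', π w = 1 → w = 1 := by
    intro w hw h1
    exact hcop w ((QuotientGroup.eq_one_iff w).1 h1) (hpow w hw)
  have hmap : W'.map π = W := by
    have h1 : W'.map π ≤ W := by
      rw [Subgroup.map_le_iff_le_comap]
      exact hWle
    refine Subgroup.eq_of_le_of_card_ge h1 ?_
    have h2 : Nat.card (W'.map π) = Nat.card W' := by
      have e : W'.map π = (π.comp W'.subtype).range := by
        rw [MonoidHom.range_comp, Subgroup.range_subtype]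
      rw [e]
      refine (Nat.card_congr (MonoidHom.ofInjective ?_).toEquiv).symm
      rw [injective_iff_map_eq_one]
      intro a ha
      exact Subtype.ext (hinj a.1 a.2 ha)
    rw [h2, hcW, hr]
  refine ⟨W', I.comap π, ?_, ?_, hc I, ?_, ?_⟩
  · exact hWle.trans (Subgroup.comap_mono hWI)
  · rw [hcW, hr]
  · intro g hg w hw
    have h1 : π g * π w * (π g)⁻¹ ∈ W := hn _ hg _ (hWle hw)
    rw [← hmap] at h1
    obtain ⟨v, hv, hv1⟩ := h1
    have h2 : π (v⁻¹ * (g * w * g⁻¹)) = 1 := by
      rw [map_mul, map_inv, hv1, map_mul, map_mul, map_inv]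
      group
    have h3 : v⁻¹ * (g * w * g⁻¹) ∈ Z := (QuotientGroup.eq_one_iff _).1 h2
    set z := v⁻¹ * (g * w * g⁻¹) with hzd
    have h4 : g * w * g⁻¹ = v * z := by rw [hzd]; group
    have h5 : (v * z) ^ (p ^ r) = v ^ (p ^ r) * z ^ (p ^ r) := by
      have : Commute v z := Subgroup.mem_center_iff.1 (hZ h3) v
      exact this.mul_pow _
    have h6 : (g * w * g⁻¹) ^ (p ^ r) = 1 := by
      rw [conj_pow, hpow w hw]
      group
    rw [h4, h5, hpow v hv, one_mul] at h6
    have h7 := hcop z h3 h6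
    rw [h4, h7, mul_one]
    exact hv
  · intro w hw
    rw [← hmap] at hw
    obtain ⟨v, hv, hv1⟩ := hw
    exact ⟨v, hv, hv1⟩

theorem psw_center (p : ℕ) (F : Type) [Field F] [Finite F] (f q : ℕ) (hp : p.Prime) (hf : 1 ≤ f)
    (hq : q = p ^ f) (hF : Nat.card F = q) :
    Nat.card (Subgroup.center (SL F)) = Nat.gcd 2 (q - 1) := by
  classical
  haveI : Fact p.Prime := ⟨hp⟩
  have hcF : Nat.card F = p ^ f := by rw [hF, hq]
  haveI hchar : CharP F p := by
    haveI := Fintype.ofFinite F
    rw [Nat.card_eq_fintype_card] at hcF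
    exact charP_of_card_eq_prime_pow hcF
  have hset : ((Subgroup.center (SL F) : Subgroup (SL F)) : Set (SL F)) = {1, -1} := by
    ext A
    rw [SetLike.mem_coe, Matrix.SpecialLinearGroup.mem_center_iff]
    constructor
    · rintro ⟨r, hr, hA⟩
      rw [Fintype.card_fin] at hr
      have h1 : r = 1 ∨ r = -1 := by
        have h3 : (r - 1) * (r + 1) = 0 := by linear_combination hr
        rcases mul_eq_zero.1 h3 with h4 | h4
        · exact Or.inl (by linear_combination h4)
        · exact Or.inr (by linear_combination h4)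
      rcases h1 with h1 | h1
      · left
        apply Subtype.ext
        rw [← hA, h1]
        simp
      · right
        apply Subtype.ext
        rw [← hA, h1]
        ext i j
        fin_cases i <;> fin_cases j <;> simp
    · rintro (h | h)
      · exact ⟨1, by simp, by rw [h]; simp⟩
      · refine ⟨-1, by simp, ?_⟩
        rw [Set.mem_singleton_iff.1 h]
        ext i j
        fin_cases i <;> fin_cases j <;> simp
  have h0 : Nat.card (Subgroup.center (SL F)) = Set.ncard ({1, -1} : Set (SL F)) := by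
    rw [← hset]
    rfl
  rw [h0]
  have hval : ∀ h : (1 : SL F) = -1, (2 : F) = 0 := by
    intro h
    have h1 := congrArg (fun A : SL F => A.1 0 0) h
    simp at h1
    linear_combination h1
  rcases hp.eq_two_or_odd' with h2 | h2
  · have e : (1 : SL F) = -1 := by
      apply Subtype.ext
      have h3 : (2 : F) = 0 := by
        have := CharP.cast_eq_zero F p
        rw [h2] at this
        exact_mod_cast this
      have h4 : (1 : F) = -1 := by linear_combination h3
      ext i j
      fin_cases i <;> fin_cases j <;> simp <;> exact h4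
    rw [← e, Set.pair_eq_singleton, Set.ncard_singleton]
    have h5 : Even q := by
      rw [hq, h2]
      exact (Nat.even_pow.2 ⟨even_two, by omega⟩)
    have h6 : 1 ≤ q := by
      rw [hq]
      exact Nat.one_le_pow _ _ hp.pos
    have h7 : Odd (q - 1) := Nat.Even.sub_odd h6 h5 odd_one
    exact (Nat.coprime_iff_gcd_eq_one.1 ((Nat.coprime_two_left).2 h7)).symm
  · have e : (1 : SL F) ≠ -1 := by
      intro h
      have h3 := hval h
      have h4 : p ∣ 2 := by
        rw [← CharP.cast_eq_zero_iff F p]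
        exact_mod_cast h3
      have h5 := (Nat.prime_dvd_prime_iff_eq hp Nat.prime_two).1 h4
      rw [h5] at h2
      exact absurd h2 (by decide)
    rw [Set.ncard_pair e]
    have h5 : Odd q := by
      rw [hq]
      exact h2.pow
    have h7 : Even (q - 1) := Nat.Odd.sub_odd h5 odd_one
    exact (Nat.gcd_eq_left h7.two_dvd).symm

theorem psw_thm (hSLW : S_SLW) : S_PSW := by
  intro p F _ _ f q hp hf hq hF W I n hWI hW hr hnorm hpn hcard
  classical
  have hz := psw_center p F f q hp hf hq hF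
  have hfin : Finite (SL F) := Subtype.finite
  have hqp : 1 ≤ q := by
    rw [hq]
    exact Nat.one_le_pow _ _ hp.pos
  have hpz : ¬ p ∣ Nat.card (Subgroup.center (SL F)) := by
    rw [hz]
    intro h
    have h1 : p ∣ q - 1 := h.trans (Nat.gcd_dvd_right _ _)
    have h2 : p ∣ q := by
      rw [hq]
      exact dvd_pow_self p (by omega)
    have h3 : p ∣ 1 := by
      have := Nat.dvd_sub h2 h1
      rwa [Nat.sub_sub_self hqp] at this
    exact hp.one_lt.ne' (Nat.dvd_one.1 h3)
  obtain ⟨W', I', a1, a2, a3, a4, a5⟩ := psw_lift p hp (Subgroup.center (SL F)) le_rfl hpz W I hWI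
    hr hnorm
  have hW' : W' ≠ ⊥ := by
    intro h
    rw [h, Subgroup.card_bot] at a2
    exact hW (Subgroup.card_eq_one.1 a2.symm)
  have hpn' : ¬ p ∣ Nat.card (Subgroup.center (SL F)) * n := by
    rw [hp.dvd_mul]
    exact fun h => h.elim hpz hpn
  obtain ⟨b1, b2, -⟩ := hSLW p F f q hp hf hq hF W' I' (Nat.card (Subgroup.center (SL F)) * n)
    a1 hW' (by rw [a2]; exact hr) a4 hpn' (by rw [a3, a2, hcard]; ring)
  refine ⟨⟨?_, ?_⟩, ?_⟩
  · intro a ha
    obtain ⟨a', h1, h2⟩ := a5 a ha
    rw [← h2, ← QuotientGroup.mk_pow, b1.1 a' h1, QuotientGroup.mk_one]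
  · intro a ha b hb
    obtain ⟨a', h1, h2⟩ := a5 a ha
    obtain ⟨b', h3, h4⟩ := a5 b hb
    rw [← h2, ← h4, ← QuotientGroup.mk_mul, b1.2 a' h1 b' h3, QuotientGroup.mk_mul]
  · rw [hz] at b2
    obtain ⟨c, hc⟩ := b2
    refine ⟨c, ?_⟩
    have hg : 0 < Nat.gcd 2 (q - 1) := Nat.gcd_pos_of_pos_left _ (by norm_num)
    rw [mul_assoc] at hc
    exact Nat.div_eq_of_eq_mul_right hg hc

end Pool.CND
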